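import Pool.Agent.Helper859.Br.Half
import Pool.Agent.Helper859.Br.U1
import Pool.Agent.Helper859.Br.U2
import Pool.Agent.Helper859.Br.U3
import Pool.Agent.Helper859.Br.U4
import Pool.Agent.Helper859.Br.U5
import Pool.Agent.Helper859.Br.U6
import Pool.Agent.Helper859.Br.Z1
import Pool.Agent.Helper859.Br.Z2
import Pool.Agent.Helper859.Br.Z3

set_option linter.all false

namespace Pool.Agent.Results.MP_d7a79b_an.UpperBound

/-- For every bi-univalent function `f(z) = z + a₂ z² + ...` one has `|a₂| ≤ 707/500 = 1.414`,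
and `707/500 < √2`. -/
theorem result :
    (∀ f g : ℂ → ℂ,
      DifferentiableOn ℂ f (Metric.ball (0 : ℂ) 1) → Set.InjOn f (Metric.ball (0 : ℂ) 1) →
      f 0 = 0 → deriv f 0 = 1 →
      DifferentiableOn ℂ g (Metric.ball (0 : ℂ) 1) → Set.InjOn g (Metric.ball (0 : ℂ) 1) →
      (∀ᶠ z in nhds (0 : ℂ), g (f z) = z) →
      ‖iteratedDeriv 2 f 0‖ / 2 ≤ 707 / 500) ∧ (707 / 500 : ℝ) < Real.sqrt 2 := by
  refine ⟨?_, ?_⟩
  · intro f g df jf f0 f1 dg jg hgf
    refine Helper859.Br.Z3.gen_case ?_ df jf f0 f1 dg jg hgf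
    intro f g df jf f0 f1 dg jg hgf bf bg
    exact Helper859.Br.Z3.bdd_case Helper859.Br.Z1.oddT Helper859.Br.Z1.oddT_inv
      (Helper859.Br.U6.unif Helper859.Br.U1.tri_nonempty Helper859.Br.U1.tri_deriv Helper859.Br.U2.tri_max
        Helper859.Br.U3.tri_step Helper859.Br.U4.inter_conn Helper859.Br.U5.zside Helper859.Br.U5.near0
        (fun {F G P Q k C} h iF dF F0 oF hcov hconn => Helper859.Br.U5.oddPQ (G := G) h iF dF F0 oF hcov hconn))
      Helper859.Br.K1.exY Helper859.Br.Half.half Helper859.Br.Z2.coef_cmp df jf f0 f1 dg jg hgf bf bg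
  · apply Real.lt_sqrt_of_sq_lt
    norm_num

end Pool.Agent.Results.MP_d7a79b_an.UpperBound
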